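import Mathlib
import Pool.Agent.Lib.HBA.Main

set_option autoImplicit false

namespace Pool.Agent.Results.MP_47443c_co.AllDegrees

/-- The Walsh-Hadamard transform of the Boolean function `f` at the point `y`. -/
def walsh {n : ℕ} (f : (Fin n → ZMod 2) → ZMod 2) (y : Fin n → ZMod 2) : ℤ :=
  ∑ x : Fin n → ZMod 2, (-1 : ℤ) ^ (ZMod.val (f x + ∑ i : Fin n, x i * y i))

/-- `f` is bent: every Walsh coefficient is `2 ^ (n / 2)` or `- 2 ^ (n / 2)`; used for even `n`. -/
def IsBent {n : ℕ} (f : (Fin n → ZMod 2) → ZMod 2) : Prop :=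
  ∀ y : Fin n → ZMod 2, walsh f y = 2 ^ (n / 2) ∨ walsh f y = - 2 ^ (n / 2)

/-- `f` is homogeneous of degree `k`: it is a sum of at least one monomial, and all its (distinct)
monomials are products of exactly `k` different variables. -/
def IsHomogeneous {n : ℕ} (k : ℕ) (f : (Fin n → ZMod 2) → ZMod 2) : Prop :=
  ∃ S : Finset (Finset (Fin n)), S.Nonempty ∧ (∀ s ∈ S, s.card = k) ∧
    ∀ x : Fin n → ZMod 2, f x = ∑ s ∈ S, ∏ i ∈ s, x i

/-- For every degree `k > 1`, homogeneous bent functions of degree `k` exist in every sufficiently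
large even number of variables. -/
theorem result :
    ∀ k : ℕ, 1 < k → ∃ N : ℕ, 2 ≤ N ∧ ∀ n : ℕ, N < n → Even n →
      ∃ f : (Fin n → ZMod 2) → ZMod 2, IsHomogeneous k f ∧ IsBent f := by
  intro k hk
  obtain ⟨N, hN, h⟩ := Pool.Agent.HBA.homBent_all k hk
  refine ⟨N, hN, fun n hn heven => ?_⟩
  obtain ⟨S, hS, hW⟩ := h n hn heven
  obtain ⟨m, hm⟩ := heven
  have hn2 : n / 2 = m := by omega
  have hmpos : 0 < m := by omega
  have hsq : (2 : ℤ) ^ n = (2 ^ m) ^ 2 := by
    rw [hm, ← pow_mul]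
    congr 1
    ring
  refine ⟨fun x => ∑ s ∈ S, ∏ i ∈ s, x i, ⟨S, ?_, hS, fun x => rfl⟩, ?_⟩
  · by_contra hne
    rw [Finset.not_nonempty_iff_eq_empty] at hne
    have h0 := hW 0
    rw [hne] at h0
    simp only [Finset.sum_empty, Pi.zero_apply, zero_mul, Finset.sum_const_zero, add_zero,
      ZMod.val_zero, pow_zero, Finset.sum_const, Finset.card_univ, Fintype.card_fun,
      Fintype.card_fin, ZMod.card, nsmul_eq_mul, mul_one] at h0
    push_cast at h0
    rw [← pow_mul] at h0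
    have h1 : n * 2 = n := Nat.pow_right_injective (le_refl 2) (by exact_mod_cast h0)
    omega
  · intro y
    have h1 := hW y
    have h2 : (walsh (fun x => ∑ s ∈ S, ∏ i ∈ s, x i) y) ^ 2 = ((2 : ℤ) ^ m) ^ 2 := by
      rw [← hsq, ← h1]
      unfold walsh
      simp only [mul_comm]
    rw [hn2]
    exact sq_eq_sq_iff_eq_or_eq_neg.mp h2

end Pool.Agent.Results.MP_47443c_co.AllDegrees
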