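import Mathlib
import Pool.Agent.Lib.P47443c.Design

set_option autoImplicit false

namespace Pool.Agent.Results.MP_47443c_co.TwoPowPlusOne

/-- For every `e`, homogeneous bent functions of degree `2 ^ e + 1` exist in every even number
`n > 4 * 3 ^ (2 ^ (e + 1))` of variables. -/
theorem result :
    ∀ e : ℕ, ∀ n : ℕ, 4 * 3 ^ (2 ^ (e + 1)) < n → Even n →
      ∃ S : Finset (Finset (Fin n)), (∀ s ∈ S, s.card = 2 ^ e + 1) ∧
        ∀ a : Fin n → ZMod 2,
          (∑ x : Fin n → ZMod 2,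
              (-1 : ℤ) ^ (ZMod.val ((∑ s ∈ S, ∏ i ∈ s, x i) + ∑ i : Fin n, a i * x i))) ^ 2
            = 2 ^ n :=
  fun e n hn heven => Pool.Agent.P47443c.exists_pow e n hn heven

end Pool.Agent.Results.MP_47443c_co.TwoPowPlusOne
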